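import Mathlib

/-!
# Algebraic classes on the tensor powers of a Frobenius module: definitions

Let `k` be the field of coefficients of a Weil cohomology theory, `X` a variety over a finite field,
`V` a part of its cohomology with the Frobenius `F` and a nondegenerate form `ω`, for instance the first
cohomology of an abelian variety, with the form given by a polarization. The cohomology classes in the
tensor powers of `V` are the multilinear forms in several variables on (the dual of) `V`, indexed by
finite types `ι`.
-/

namespace Pool.Agent.TH776.DN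

open Module

/-- The cohomology classes in the tensor power of `V` with the factors indexed by `ι`, as
multilinear forms. -/
abbrev Form (k V : Type) [Field k] [AddCommGroup V] [Module k V] (ι : Type) : Type :=
  MultilinearMap k (fun _ : ι => V) k

section

variable {k V : Type} [Field k] [AddCommGroup V] [Module k V]

/-- `φ` is a Tate class over some finite extension of the finite field: if `φ` has degree `d`,
the `2 s`-th power of the Frobenius multiplies it by `q ^ (s d)`, for some `s > 0` (`q` is the
factor by which the Frobenius multiplies the form on `V`). -/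
def IsTateForm (F : V →ₗ[k] V) (q : k) {ι : Type} (φ : Form k V ι) : Prop :=
  ∃ s : ℕ, 0 < s ∧ ∀ v : ι → V,
    φ (fun i => (F ^ (2 * s)) (v i)) = q ^ (s * Nat.card ι) * φ v

/-- The properties that are used of the spaces `Z ι` spanned by the classes of algebraic cycles
in the tensor powers of `V`: they consist of Tate classes (over finite extensions), contain the
classes of degree zero and all Tate classes in `V ⊗ V` (for abelian varieties this is the theorem of
Tate), and are stable under endomorphisms of the factors that commute with some power of the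
Frobenius, permutations of the factors, tensor products and the contraction of two factors with
the form `ω` (`e` and `e'` are dual bases for `ω`). -/
structure IsAlgebraicSystem {J : Type} [Fintype J] (F : V →ₗ[k] V) (q : k)
    (e e' : Basis J k V) (Z : (ι : Type) → Submodule k (Form k V ι)) : Prop where
  tate : ∀ (ι : Type) [Finite ι] (φ : Form k V ι), φ ∈ Z ι → IsTateForm F q φ
  unit : ∀ (ι : Type) [IsEmpty ι] (φ : Form k V ι), φ ∈ Z ι
  two : ∀ (ι : Type), Nat.card ι = 2 → ∀ φ : Form k V ι, IsTateForm F q φ → φ ∈ Z ι
  pull : ∀ (ι : Type) [Finite ι] (φ : Form k V ι) (h : ι → (V →ₗ[k] V)), φ ∈ Z ι →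
    (∀ i, ∃ s : ℕ, 0 < s ∧ ∀ v, h i ((F ^ s) v) = (F ^ s) (h i v)) →
      φ.compLinearMap h ∈ Z ι
  reindex : ∀ (ι κ : Type) [Finite ι] (σ : ι ≃ κ) (φ : Form k V ι), φ ∈ Z ι →
    φ.domDomCongr σ ∈ Z κ
  tensor : ∀ (ι κ : Type) [Finite ι] [Finite κ] (φ : Form k V ι) (ψ : Form k V κ), φ ∈ Z ι →
    ψ ∈ Z κ → ∀ χ : Form k V (ι ⊕ κ),
      (∀ v, χ v = φ (fun i => v (Sum.inl i)) * ψ (fun j => v (Sum.inr j))) → χ ∈ Z (ι ⊕ κ)
  contract : ∀ (ι : Type) [Finite ι] (φ : Form k V (ι ⊕ Fin 2)), φ ∈ Z (ι ⊕ Fin 2) →
    ∀ ψ : Form k V ι, (∀ v, ψ v = ∑ j, φ (Sum.elim v ![e j, e' j])) → ψ ∈ Z ι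

/-- The intersection form on the tensor power of `V`: the form induced by `ω`, in terms of dual
bases `e`, `e'` of `V`. -/
noncomputable def pairing {J : Type} [Fintype J] (e e' : Basis J k V) {ι : Type} [Fintype ι]
    [DecidableEq ι] (φ ψ : Form k V ι) : k :=
  ∑ f : ι → J, φ (fun i => e (f i)) * ψ (fun i => e' (f i))

end

/-- Multiplicative relations between the roots `α` of the polynomial `P` (in an algebraic closure of
`k`) and `q`, up to roots of unity, whose exponents depend only on the minimal polynomials of the `α`
over `k` (in other words, relations between `q` and the constant terms of the irreducible factors of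
`P` over `k`), are consequences of the relations `α (q / α) = q`: the exponents of `α` and `q / α` are
equal. -/
def OnlyTrivialRelationsOver (k : Type) [Field k] (q : k) (P : Polynomial k) : Prop :=
  ∀ c : Polynomial k → ℕ,
    (∃ s : ℕ, 0 < s ∧
      ∏ α ∈ (P.rootSet_finite (AlgebraicClosure k)).toFinset, α ^ (2 * s * c (minpoly k α)) =
        (algebraMap k (AlgebraicClosure k) q) ^
          (s * ∑ α ∈ (P.rootSet_finite (AlgebraicClosure k)).toFinset, c (minpoly k α))) →
    ∀ α ∈ P.rootSet (AlgebraicClosure k),
      c (minpoly k (algebraMap k (AlgebraicClosure k) q / α)) = c (minpoly k α)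

end Pool.Agent.TH776.DN
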