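import Pool.Agent.TH776.DN.Orbit

/-!
# Homological and numerical equivalence on tensor powers
-/

set_option linter.unusedSectionVars false
set_option linter.unusedVariables false
set_option linter.deprecated false

namespace Pool.Agent.TH776.DN

open Module Finset
open scoped Matrix

noncomputable section

variable {k V Ω : Type} [Field k] [AddCommGroup V] [Module k V] [Field Ω] [Algebra k Ω]

section eigenbasis

variable (Ω) in
/-- The transposed operator. -/
def tr (F : V →ₗ[k] V) : (V →ₗ[k] Ω) →ₗ[Ω] (V →ₗ[k] Ω) where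
  toFun z := z ∘ₗ F
  map_add' _ _ := rfl
  map_smul' _ _ := rfl

theorem tr_apply (F : V →ₗ[k] V) (z : V →ₗ[k] Ω) : tr Ω F z = z ∘ₗ F := rfl

theorem aeval_tr (F : V →ₗ[k] V) (p : Polynomial k) (z : V →ₗ[k] Ω) :
    Polynomial.aeval (tr Ω F) (p.map (algebraMap k Ω)) z = z ∘ₗ (Polynomial.aeval F p) := by
  induction p using Polynomial.induction_on' with
  | add p q hp hq =>
    rw [Polynomial.map_add, map_add, map_add, LinearMap.add_apply, hp, hq, LinearMap.comp_add]
  | monomial n a =>
    have h1 : ∀ n : ℕ, ((tr Ω F) ^ n) z = z ∘ₗ (F ^ n) := by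
      intro n
      induction n with
      | zero => rfl
      | succ n ih =>
        rw [pow_succ', Module.End.mul_apply, ih, tr_apply, pow_succ]
        rfl
    rw [Polynomial.map_monomial, Polynomial.aeval_monomial, Polynomial.aeval_monomial,
      Module.End.mul_apply, h1]
    ext v
    change algebraMap k Ω a * z ((F ^ n) v) = z (a • (F ^ n) v)
    rw [map_smul, Algebra.smul_def]

variable {J : Type} [Fintype J] [DecidableEq J] (e : Basis J k V)

include e in
open Classical in
theorem finite_dual : FiniteDimensional Ω (V →ₗ[k] Ω) := by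
  refine ⟨⟨Finset.univ.image (co e Ω), ?_⟩⟩
  rw [eq_top_iff]
  intro z _
  rw [eq_sum_co e z]
  exact Submodule.sum_mem _ fun j _ => Submodule.smul_mem _ _
    (Submodule.subset_span (Finset.mem_coe.2 (Finset.mem_image_of_mem _ (Finset.mem_univ _))))

include e in
/-- A basis of eigenvectors. -/
theorem exists_eigenbasis [CharZero k] [IsAlgClosed Ω] {F : V →ₗ[k] V}
    (hF : Module.End.IsSemisimple F) :
    ∃ (A : Type) (_ : Fintype A) (x : Basis A Ω (V →ₗ[k] Ω)) (lam : A → Ω),
      ∀ a, x a ∘ₗ F = lam a • x a := by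
  classical
  have : FiniteDimensional k V := Module.Finite.of_basis e
  have hfd : FiniteDimensional Ω (V →ₗ[k] Ω) := finite_dual e
  have hsq : Squarefree (minpoly k F) := hF.minpoly_squarefree
  have hsep : (minpoly k F).Separable := PerfectField.separable_iff_squarefree.2 hsq
  have hsep' : ((minpoly k F).map (algebraMap k Ω)).Separable := hsep.map
  have hss : Module.End.IsSemisimple (tr Ω F) := by
    refine Module.End.isSemisimple_of_squarefree_aeval_eq_zero hsep'.squarefree ?_
    refine LinearMap.ext fun z => ?_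
    rw [aeval_tr, minpoly.aeval]
    exact LinearMap.comp_zero z
  have htop : (⨆ μ : Ω, Module.End.eigenspace (tr Ω F) μ) = ⊤ := by
    rw [← Module.End.iSup_maxGenEigenspace_eq_top (tr Ω F)]
    exact iSup_congr fun μ =>
      (hss.isFinitelySemisimple.maxGenEigenspace_eq_eigenspace μ).symm
  have hspan : (⊤ : Submodule Ω (V →ₗ[k] Ω)) ≤
      Submodule.span Ω {z : V →ₗ[k] Ω | ∃ μ : Ω, z ∘ₗ F = μ • z} := by
    rw [← htop]
    refine iSup_le fun μ z hz => Submodule.subset_span ⟨μ, ?_⟩
    exact Module.End.mem_eigenspace_iff.1 hz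
  let x := Basis.ofSpan hspan
  have hfin := Module.Finite.finite_basis x
  have hx : ∀ a, ∃ μ : Ω, x a ∘ₗ F = μ • x a := fun a =>
    Basis.ofSpan_subset hspan (Set.mem_range_self a)
  choose lam hlam using hx
  exact ⟨_, Fintype.ofFinite _, x, lam, hlam⟩

/-- The eigenvalues are the roots of the characteristic polynomial. -/
theorem mem_range_iff {A : Type} [Fintype A] {x : Basis A Ω (V →ₗ[k] Ω)}
    {lam : A → Ω} {F : V →ₗ[k] V} [FiniteDimensional k V]
    (hx : ∀ a, x a ∘ₗ F = lam a • x a) (α : Ω) :
    α ∈ Set.range lam ↔ α ∈ F.charpoly.rootSet Ω := by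
  classical
  have hne : F.charpoly ≠ 0 := F.charpoly_monic.ne_zero
  rw [Polynomial.mem_rootSet]
  have heval : ∀ z : V →ₗ[k] Ω, z ≠ 0 → z ∘ₗ F = α • z → Polynomial.aeval α F.charpoly = 0 := by
    intro z hz h
    have h1 := aeval_tr F F.charpoly z
    rw [LinearMap.aeval_self_charpoly, LinearMap.comp_zero] at h1
    have h2 : ∀ p : Polynomial Ω, Polynomial.aeval (tr Ω F) p z = p.eval α • z := by
      intro p
      refine Module.End.aeval_apply_of_hasEigenvector ⟨?_, hz⟩
      exact Module.End.mem_eigenspace_iff.2 h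
    rw [h2, smul_eq_zero] at h1
    rw [Polynomial.aeval_def, ← Polynomial.eval_map]
    exact h1.resolve_right hz
  constructor
  · rintro ⟨a, rfl⟩
    exact ⟨hne, heval (x a) (x.ne_zero a) (hx a)⟩
  · rintro ⟨-, h⟩
    let e := Module.finBasis k V
    let M := LinearMap.toMatrix e e F
    have h1 : (M.map (algebraMap k Ω)).charpoly.eval α = 0 := by
      rw [Matrix.charpoly_map, LinearMap.charpoly_toMatrix, Polynomial.eval_map,
        ← Polynomial.aeval_def]
      exact h
    rw [Matrix.eval_charpoly] at h1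
    obtain ⟨v, hv, h2⟩ := Matrix.exists_vecMul_eq_zero_iff.2 h1
    let z : V →ₗ[k] Ω := ∑ i, v i • co e Ω i
    have hze : ∀ i, z (e i) = v i := by
      intro i
      rw [LinearMap.sum_apply, Finset.sum_eq_single i]
      · rw [LinearMap.smul_apply, co_apply, Basis.repr_self, Finsupp.single_eq_same, map_one,
          smul_eq_mul, mul_one]
      · intro j _ hj
        rw [LinearMap.smul_apply, co_apply, Basis.repr_self, Finsupp.single_eq_of_ne hj, map_zero,
          smul_zero]
      · intro h
        exact absurd (Finset.mem_univ _) h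
    have hz0 : z ≠ 0 := by
      intro h0
      apply hv
      funext i
      rw [← hze i, h0]
      rfl
    refine eig_of_ne hx hz0 (e.ext fun j => ?_)
    have h3 := congrFun h2 j
    rw [Matrix.vecMul_sub, Pi.sub_apply, Pi.zero_apply, sub_eq_zero] at h3
    have h4 : (v ᵥ* (Matrix.scalar _ α)) j = α * v j := by
      rw [Matrix.scalar_apply, Matrix.vecMul_diagonal, mul_comm]
    rw [h4] at h3
    rw [LinearMap.comp_apply, LinearMap.smul_apply, hze, smul_eq_mul, h3,
      ← e.sum_repr (F (e j)), map_sum, Matrix.vecMul, dotProduct]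
    refine Finset.sum_congr rfl fun i _ => ?_
    have hM : M i j = e.repr (F (e j)) i := LinearMap.toMatrix_apply e e F i j
    rw [map_smul, hze, Matrix.map_apply, hM, Algebra.smul_def, mul_comm]

end eigenbasis

section main

variable {J : Type} [Fintype J] [DecidableEq J] {e e' : Basis J k V}
  {F : V →ₗ[k] V} {q : k} {Z : (ι : Type) → Submodule k (Form k V ι)}
  {ω : V →ₗ[k] V →ₗ[k] k}

/-- Replacing the Frobenius by a power. -/
theorem system_pow (hZ : IsAlgebraicSystem F q e e' Z) {n : ℕ} (hn : 0 < n) :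
    IsAlgebraicSystem (F ^ n) (q ^ n) e e' Z where
  tate ι _ φ hφ := by
    obtain ⟨s, hs, h⟩ := hZ.tate ι φ hφ
    refine ⟨s, hs, fun v => ?_⟩
    have h1 : ∀ t : ℕ, ∀ v : ι → V, φ (fun i => (F ^ (2 * (s * t))) (v i)) =
        (q ^ (s * Nat.card ι)) ^ t * φ v := by
      intro t
      induction t with
      | zero => intro v; simp
      | succ t ih =>
        intro v
        have h2 : ∀ i, (F ^ (2 * (s * (t + 1)))) (v i) =
            (F ^ (2 * s)) ((F ^ (2 * (s * t))) (v i)) := by
          intro i
          rw [← Module.End.mul_apply, ← pow_add]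
          congr 2
          ring
        simp only [h2]
        rw [h, ih, pow_succ]
        ring
    have h3 := h1 n v
    have h4 : ((F ^ n) ^ (2 * s)) = F ^ (2 * (s * n)) := by
      rw [← pow_mul]
      congr 1
      ring
    rw [h4, h3, ← pow_mul, ← pow_mul]
    congr 2
    ring
  unit := hZ.unit
  two ι hι φ hφ := by
    obtain ⟨s, hs, h⟩ := hφ
    refine hZ.two ι hι φ ⟨n * s, Nat.mul_pos hn hs, fun v => ?_⟩
    have h1 : F ^ (2 * (n * s)) = (F ^ n) ^ (2 * s) := by
      rw [← pow_mul]
      congr 1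
      ring
    rw [h1, h, ← pow_mul]
    congr 2
    ring
  pull ι _ φ h hφ hh := by
    refine hZ.pull ι φ h hφ fun i => ?_
    obtain ⟨s, hs, h1⟩ := hh i
    refine ⟨n * s, Nat.mul_pos hn hs, fun v => ?_⟩
    rw [pow_mul]
    exact h1 v
  reindex := hZ.reindex
  tensor := hZ.tensor
  contract := hZ.contract

/-- Numerical and homological equivalence coincide. -/
theorem eq_zero_of_orthogonal_one [CharZero k] [FiniteDimensional k V] (hF : Module.End.IsSemisimple F) (hq : q ≠ 0)
    (hω : ∀ u v, ω (F u) (F v) = q * ω u v)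
    (hdual : ∀ i j, ω (e i) (e' j) = if i = j then 1 else 0)
    (hZ : IsAlgebraicSystem F q e e' Z) (hrel : OnlyTrivialRelationsOver k q F.charpoly)
    {ι : Type} [Fintype ι] [DecidableEq ι] {φ : Form k V ι} (hφ : φ ∈ Z ι)
    (horth : ∀ ψ ∈ Z ι, pairing e e' φ ψ = 0) : φ = 0 := by
  classical
  let Ω := AlgebraicClosure k
  obtain ⟨A, _, x, lam, hx⟩ := exists_eigenbasis (Ω := Ω) e hF
  let b := Basis.ofVectorSpace k Ω
  have _ : Fintype (Eig lam) := Set.fintypeRange lam
  by_contra hne
  -- a coefficient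
  obtain ⟨f, hf⟩ : ∃ f : ι → A, PP e e' (incl Ω φ) (mono fun i => dual e e' x (f i)) ≠ 0 := by
    by_contra hall
    push Not at hall
    apply hne
    have h1 := expand e e' x (incl Ω φ)
    have h2 : incl Ω φ = 0 := by
      rw [h1]
      exact Finset.sum_eq_zero fun g _ => by rw [hall g, zero_smul]
    ext v
    have h3 := congrArg (fun Φ : OForm k V Ω ι => Φ v) h2
    exact (map_eq_zero (algebraMap k Ω)).1 h3
  have h1 := good_of_coeff (e := e) (e' := e') b hx hZ (incl_mem hφ) f hf
  have h2 := good_bar hx hZ hdual hq hω ?_ h1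
  · -- the dual monomial
    have h3 : mono (fun i => dual e e' x (f i)) ∈ ZO Ω Z ι := h2 _ fun i => by
      rw [bar_coe]
      exact dual_eig hx hdual hq hω (f i)
    have h4 : ∀ Ψ ∈ ZO Ω Z ι, PP e e' (incl Ω φ) Ψ = 0 := by
      intro Ψ hΨ
      unfold ZO at hΨ
      induction hΨ using Submodule.span_induction with
      | mem Ψ hΨ =>
        obtain ⟨ψ, hψ, rfl⟩ := hΨ
        rw [PP_incl, horth ψ hψ, map_zero]
      | zero =>
        unfold PP
        exact Finset.sum_eq_zero fun f _ => by rw [MultilinearMap.zero_apply, mul_zero]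
      | add Ψ Ψ' _ _ h5 h6 => rw [PP_add_right, h5, h6, add_zero]
      | smul a Ψ _ h5 => rw [PP_smul_right, h5, mul_zero]
    exact hf (h4 _ h3)
  · -- relations
    intro N hinv hN
    -- the exponents as a function of the minimal polynomial
    let c : Polynomial k → ℕ := fun p =>
      if h : ∃ α : Eig lam, minpoly k (α : Ω) = p then N h.choose else 0
    have hc : ∀ α : Eig lam, c (minpoly k (α : Ω)) = N α := by
      intro α
      have hex : ∃ α' : Eig lam, minpoly k (α' : Ω) = minpoly k (α : Ω) := ⟨α, rfl⟩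
      have h3 : c (minpoly k (α : Ω)) = N hex.choose := dif_pos hex
      rw [h3]
      obtain ⟨σ, hσ⟩ := (isConjRoot_iff_exists_algEquiv (K := k) (L := Ω)).1 hex.choose_spec
      have h4 := hinv σ α
      have h5 : galPerm hx σ α = hex.choose := Subtype.ext hσ
      rw [h5] at h4
      exact h4
    have hmem : ∀ α : Ω, α ∈ (F.charpoly.rootSet_finite Ω).toFinset ↔ α ∈ Set.range lam := by
      intro α
      rw [Set.Finite.mem_toFinset, mem_range_iff hx]
    have hprod : ∀ g : Ω → Ω, ∏ α ∈ (F.charpoly.rootSet_finite Ω).toFinset, g α =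
        ∏ α : Eig lam, g α := fun g => Finset.prod_subtype _ hmem g
    have hsum : ∀ g : Ω → ℕ, ∑ α ∈ (F.charpoly.rootSet_finite Ω).toFinset, g α =
        ∑ α : Eig lam, g α := fun g => Finset.sum_subtype _ hmem g
    have h3 := hrel c (by
      obtain ⟨s, hs, h4⟩ := hN
      refine ⟨s, hs, ?_⟩
      rw [hprod (fun α => α ^ (2 * s * c (minpoly k α))), hsum (fun α => c (minpoly k α))]
      simp only [hc]
      exact h4)
    intro α
    have h4 := h3 α ((mem_range_iff hx _).1 α.2)
    rw [hc α] at h4
    rw [← hc (bar hx hdual hq hω α), bar_coe]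
    exact h4

theorem eq_zero_of_orthogonal [CharZero k] [FiniteDimensional k V] (hF : Module.End.IsSemisimple F) (hq : q ≠ 0)
    (hω : ∀ u v, ω (F u) (F v) = q * ω u v)
    (hdual : ∀ i j, ω (e i) (e' j) = if i = j then 1 else 0)
    (hZ : IsAlgebraicSystem F q e e' Z) {n : ℕ} (hn : 0 < n)
    (hrel : OnlyTrivialRelationsOver k (q ^ n) (LinearMap.charpoly (F ^ n)))
    {ι : Type} [Fintype ι] [DecidableEq ι] {φ : Form k V ι} (hφ : φ ∈ Z ι)
    (horth : ∀ ψ ∈ Z ι, pairing e e' φ ψ = 0) : φ = 0 := by
  refine eq_zero_of_orthogonal_one (F := F ^ n) (q := q ^ n) (ω := ω) ?_ (pow_ne_zero n hq) ?_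
    hdual (system_pow hZ hn) hrel hφ horth
  · exact hF.pow n
  · intro u v
    clear hrel
    have h1 : ∀ n : ℕ, ∀ u v, ω ((F ^ n) u) ((F ^ n) v) = q ^ n * ω u v := by
      intro n
      induction n with
      | zero => intro u v; simp
      | succ n ih =>
        intro u v
        rw [pow_succ, Module.End.mul_apply, Module.End.mul_apply, ih, hω, pow_succ]
        ring
    exact h1 n u v

end main

end

end Pool.Agent.TH776.DN
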