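import Pool.Agent.TH776.DN.Forms

/-!
# Descent of linear conditions, and operators commuting with the Frobenius
-/

set_option linter.unusedSectionVars false
set_option linter.unusedVariables false
set_option linter.deprecated false

namespace Pool.Agent.TH776.DN

open Module Finset

noncomputable section

variable {k V Ω : Type} [Field k] [AddCommGroup V] [Module k V] [Field Ω] [Algebra k Ω]
variable {J : Type} [Fintype J] [DecidableEq J] (e e' : Basis J k V)
variable {B : Type} (b : Basis B k Ω)

include e in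
open Classical in
/-- A form with values in `Ω` is a combination of its coordinates. -/
theorem descent {ι : Type} [Fintype ι] (Φ : OForm k V Ω ι) :
    ∃ T : Finset B, Φ = ∑ β ∈ T, b β • incl Ω ((b.coord β).compMultilinearMap Φ) := by
  refine ⟨Finset.univ.biUnion fun f : ι → J => (b.repr (Φ fun i => e (f i))).support, ?_⟩
  refine Basis.ext_multilinear (fun _ => e) fun f => ?_
  rw [MultilinearMap.sum_apply]
  conv_lhs => rw [← b.linearCombination_repr (Φ fun i => e (f i))]
  rw [Finsupp.linearCombination_apply, Finsupp.sum_of_support_subset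
    (s := Finset.univ.biUnion fun f : ι → J => (b.repr (Φ fun i => e (f i))).support)]
  · refine Finset.sum_congr rfl fun β _ => ?_
    rw [MultilinearMap.smul_apply, incl_apply, LinearMap.compMultilinearMap_apply,
      Basis.coord_apply, Algebra.smul_def, smul_eq_mul, mul_comm]
  · intro β hβ
    exact Finset.mem_biUnion.2 ⟨f, Finset.mem_univ _, hβ⟩
  · intro β _
    rw [zero_smul]

include e in
theorem mem_ZO_of_coord {Z : (ι : Type) → Submodule k (Form k V ι)} {ι : Type} [Fintype ι]
    {Φ : OForm k V Ω ι} (h : ∀ β : B, (b.coord β).compMultilinearMap Φ ∈ Z ι) : Φ ∈ ZO Ω Z ι := by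
  obtain ⟨T, hT⟩ := descent e b Φ
  rw [hT]
  exact Submodule.sum_mem _ fun β _ => Submodule.smul_mem _ _ (incl_mem (h β))

/-- The components of an operator. -/
def opc (T : (V →ₗ[k] Ω) →ₗ[Ω] (V →ₗ[k] Ω)) (β : B) : V →ₗ[k] V :=
  ∑ j, ((b.coord β) ∘ₗ (T (co e Ω j))).smulRight (e j)

theorem opc_apply (T : (V →ₗ[k] Ω) →ₗ[Ω] (V →ₗ[k] Ω)) (β : B) (v : V) :
    opc e b T β v = ∑ j, b.repr (T (co e Ω j) v) β • e j := by
  unfold opc
  rw [LinearMap.sum_apply]
  rfl

theorem repr_opc (T : (V →ₗ[k] Ω) →ₗ[Ω] (V →ₗ[k] Ω)) (β : B) (v : V) (j : J) :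
    e.repr (opc e b T β v) j = b.repr (T (co e Ω j) v) β := by
  rw [opc_apply]
  simp only [map_sum, map_smul, Basis.repr_self]
  rw [Finsupp.finset_sum_apply, Finset.sum_eq_single j]
  · simp
  · intro l _ hl
    rw [Finsupp.smul_apply, Finsupp.single_eq_of_ne (Ne.symm hl), smul_zero]
  · intro h
    exact absurd (Finset.mem_univ _) h

open Classical in
theorem op_sum (T : (V →ₗ[k] Ω) →ₗ[Ω] (V →ₗ[k] Ω)) :
    ∃ T' : Finset B, ∀ z v, T z v = ∑ β ∈ T', b β * z (opc e b T β v) := by
  refine ⟨Finset.univ.biUnion fun p : J × J => (b.repr (T (co e Ω p.1) (e p.2))).support,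
    fun z v => ?_⟩
  have h1 : T z = ∑ β ∈ Finset.univ.biUnion
      (fun p : J × J => (b.repr (T (co e Ω p.1) (e p.2))).support),
      b β • (z ∘ₗ opc e b T β) := by
    refine e.ext fun l => ?_
    conv_lhs => rw [eq_sum_co e z]
    rw [map_sum, LinearMap.sum_apply, LinearMap.sum_apply]
    have h2 : ∀ j, (T (z (e j) • co e Ω j)) (e l) = ∑ β ∈ Finset.univ.biUnion
        (fun p : J × J => (b.repr (T (co e Ω p.1) (e p.2))).support),
        z (e j) * (b.repr (T (co e Ω j) (e l)) β • b β) := by
      intro j
      rw [map_smul, LinearMap.smul_apply, smul_eq_mul, ← Finset.mul_sum]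
      congr 1
      conv_lhs => rw [← b.linearCombination_repr (T (co e Ω j) (e l))]
      rw [Finsupp.linearCombination_apply, Finsupp.sum_of_support_subset
        (s := Finset.univ.biUnion fun p : J × J => (b.repr (T (co e Ω p.1) (e p.2))).support)]
      · intro β hβ
        exact Finset.mem_biUnion.2 ⟨(j, l), Finset.mem_univ _, hβ⟩
      · intro β _
        rw [zero_smul]
    rw [Finset.sum_congr rfl (fun j _ => h2 j), Finset.sum_comm]
    refine Finset.sum_congr rfl fun β _ => ?_
    rw [LinearMap.smul_apply, LinearMap.comp_apply, opc_apply, map_sum, smul_eq_mul,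
      Finset.mul_sum]
    refine Finset.sum_congr rfl fun j _ => ?_
    rw [map_smul, Algebra.smul_def, Algebra.smul_def]
    ring
  rw [h1, LinearMap.sum_apply]
  exact Finset.sum_congr rfl fun β _ => rfl

theorem opc_comm {T : (V →ₗ[k] Ω) →ₗ[Ω] (V →ₗ[k] Ω)} {G : V →ₗ[k] V}
    (h : ∀ z : V →ₗ[k] Ω, T (z ∘ₗ G) = (T z) ∘ₗ G) (β : B) (v : V) :
    opc e b T β (G v) = G (opc e b T β v) := by
  apply e.repr.injective
  ext j
  rw [repr_opc]
  have h1 : T (co e Ω j) (G v) =
      ∑ l, (e.repr (G (e l)) j) • T (co e Ω l) v := by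
    have h2 : T (co e Ω j) (G v) = (T (co e Ω j ∘ₗ G)) v := by rw [h]; rfl
    rw [h2, eq_sum_co e (co e Ω j ∘ₗ G), map_sum, LinearMap.sum_apply]
    refine Finset.sum_congr rfl fun l _ => ?_
    rw [map_smul, LinearMap.smul_apply, LinearMap.comp_apply, co_apply, smul_eq_mul]
    exact (Algebra.smul_def _ _).symm
  rw [h1, map_sum, Finsupp.finset_sum_apply, opc_apply, map_sum, map_sum,
    Finsupp.finset_sum_apply]
  refine Finset.sum_congr rfl fun l _ => ?_
  rw [map_smul, Finsupp.smul_apply, map_smul, map_smul, Finsupp.smul_apply, smul_eq_mul,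
    smul_eq_mul, mul_comm]

section operators

variable {A : Type} [Fintype A] [DecidableEq A] (x : Basis A Ω (V →ₗ[k] Ω))

/-- Operators applied to all variables: only one coefficient remains. -/
theorem operators {ι : Type} [Fintype ι] [DecidableEq ι] (f : ι → A) (z : ι → (V →ₗ[k] Ω))
    (T : ι → Finset B)
    (hT : ∀ i w v, ((x.coord (f i)).smulRight (z i)) w v =
      ∑ β ∈ T i, b β * w (opc e b ((x.coord (f i)).smulRight (z i)) β v))
    (Φ : OForm k V Ω ι) :
    ∑ β ∈ Fintype.piFinset T, (∏ i, b (β i)) •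
      Φ.compLinearMap (fun i => opc e b ((x.coord (f i)).smulRight (z i)) (β i)) =
      PP e e' Φ (mono fun i => dual e e' x (f i)) • mono z := by
  have key : ∀ w : ι → (V →ₗ[k] Ω), ∑ β ∈ Fintype.piFinset T, (∏ i, b (β i)) •
      (mono w).compLinearMap (fun i => opc e b ((x.coord (f i)).smulRight (z i)) (β i)) =
      PP e e' (mono w) (mono fun i => dual e e' x (f i)) • mono z := by
    intro w
    ext v
    rw [MultilinearMap.sum_apply, MultilinearMap.smul_apply, PP_mono, mono_apply, smul_eq_mul,
      ← Finset.prod_mul_distrib]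
    have h1 : ∀ i, pp e e' (w i) (dual e e' x (f i)) * z i (v i) =
        ∑ β ∈ T i, b β * w i (opc e b ((x.coord (f i)).smulRight (z i)) β (v i)) := by
      intro i
      rw [← hT, pp_dual]
      rfl
    rw [Finset.prod_congr rfl (fun i _ => h1 i), Finset.prod_univ_sum]
    refine Finset.sum_congr rfl fun β _ => ?_
    rw [MultilinearMap.smul_apply, MultilinearMap.compLinearMap_apply, mono_apply, smul_eq_mul,
      Finset.prod_mul_distrib]
  -- both sides are linear in the form
  have hlin : ∀ (s : Finset (ι → A)) (c : (ι → A) → Ω),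
      ∑ β ∈ Fintype.piFinset T, (∏ i, b (β i)) •
        (∑ g ∈ s, c g • (mono fun i => x (g i)) : OForm k V Ω ι).compLinearMap
          (fun i => opc e b ((x.coord (f i)).smulRight (z i)) (β i)) =
        PP e e' (∑ g ∈ s, c g • (mono fun i => x (g i)) : OForm k V Ω ι)
          (mono fun i => dual e e' x (f i)) • mono z := by
    intro s c
    induction s using Finset.induction_on with
    | empty =>
      have h1 : PP e e' (0 : OForm k V Ω ι) (mono fun i => dual e e' x (f i)) = 0 := by
        have := PP_smul e e' 0 (0 : OForm k V Ω ι) (mono fun i => dual e e' x (f i))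
        rwa [zero_smul, zero_mul] at this
      rw [Finset.sum_empty, h1, zero_smul]
      exact Finset.sum_eq_zero fun β _ => by
        ext v
        simp
    | insert g s hg ih =>
      rw [Finset.sum_insert hg, PP_add, PP_smul, add_smul, ← ih, mul_smul, ← key,
        Finset.smul_sum, ← Finset.sum_add_distrib]
      refine Finset.sum_congr rfl fun β _ => ?_
      ext v
      simp only [MultilinearMap.smul_apply, MultilinearMap.compLinearMap_apply,
        MultilinearMap.add_apply, smul_eq_mul]
      ring
  have h2 := hlin Finset.univ (fun g => PP e e' Φ (mono fun i => dual e e' x (g i)))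
  rw [← expand e e' x Φ] at h2
  exact h2

end operators

end

end Pool.Agent.TH776.DN
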