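import Pool.Agent.TH776.DN.Defs

/-!
# Forms with values in an extension of the field of coefficients
-/

set_option linter.unusedSectionVars false
set_option linter.unusedVariables false

namespace Pool.Agent.TH776.DN

open Module Finset

noncomputable section

variable {k V Ω : Type} [Field k] [AddCommGroup V] [Module k V] [Field Ω] [Algebra k Ω]

/-- Forms with values in `Ω`. -/
abbrev OForm (k V Ω : Type) [Field k] [AddCommGroup V] [Module k V] [Field Ω] [Algebra k Ω]
    (ι : Type) : Type := MultilinearMap k (fun _ : ι => V) Ω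

/-- Extension of the values. -/
def incl (Ω : Type) [Field Ω] [Algebra k Ω] {ι : Type} (φ : Form k V ι) : OForm k V Ω ι :=
  (Algebra.linearMap k Ω).compMultilinearMap φ

theorem incl_apply {ι : Type} (φ : Form k V ι) (v : ι → V) :
    incl Ω φ v = algebraMap k Ω (φ v) := rfl

/-- Products of linear forms. -/
def mono {ι : Type} [Fintype ι] (z : ι → (V →ₗ[k] Ω)) : OForm k V Ω ι :=
  (MultilinearMap.mkPiAlgebra k ι Ω).compLinearMap z

theorem mono_apply {ι : Type} [Fintype ι] (z : ι → (V →ₗ[k] Ω)) (v : ι → V) :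
    mono z v = ∏ i, z i (v i) := rfl

/-- The span over `Ω`. -/
def ZO (Ω : Type) [Field Ω] [Algebra k Ω] (Z : (ι : Type) → Submodule k (Form k V ι)) (ι : Type) :
    Submodule Ω (OForm k V Ω ι) :=
  Submodule.span Ω {Φ | ∃ φ ∈ Z ι, Φ = incl Ω φ}

theorem incl_mem {Z : (ι : Type) → Submodule k (Form k V ι)} {ι : Type} {φ : Form k V ι}
    (h : φ ∈ Z ι) : incl Ω φ ∈ ZO Ω Z ι := Submodule.subset_span ⟨φ, h, rfl⟩

variable {J : Type} [Fintype J] [DecidableEq J] (e e' : Basis J k V)

/-- Coordinates as forms with values in `Ω`. -/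
def co (Ω : Type) [Field Ω] [Algebra k Ω] (j : J) : V →ₗ[k] Ω :=
  (Algebra.linearMap k Ω) ∘ₗ e.coord j

theorem co_apply (j : J) (v : V) : co e Ω j v = algebraMap k Ω (e.repr v j) := rfl

theorem eq_sum_co (z : V →ₗ[k] Ω) : z = ∑ j, z (e j) • co e Ω j := by
  refine e.ext fun l => ?_
  rw [LinearMap.sum_apply, Finset.sum_eq_single l]
  · rw [LinearMap.smul_apply, co_apply, Basis.repr_self, Finsupp.single_eq_same, map_one,
      smul_eq_mul, mul_one]
  · intro j _ hj
    rw [LinearMap.smul_apply, co_apply, Basis.repr_self, Finsupp.single_eq_of_ne hj, map_zero,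
      smul_zero]
  · intro h
    exact absurd (Finset.mem_univ _) h

/-- The form on the dual space. -/
def pp (z z' : V →ₗ[k] Ω) : Ω := ∑ j, z (e j) * z' (e' j)

/-- The form on the space of forms. -/
def PP {ι : Type} [Fintype ι] [DecidableEq ι] (Φ Ψ : OForm k V Ω ι) : Ω :=
  ∑ f : ι → J, Φ (fun i => e (f i)) * Ψ (fun i => e' (f i))

theorem PP_mono {ι : Type} [Fintype ι] [DecidableEq ι] (z z' : ι → (V →ₗ[k] Ω)) :
    PP e e' (mono z) (mono z') = ∏ i, pp e e' (z i) (z' i) := by
  unfold PP pp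
  rw [Finset.prod_univ_sum, Fintype.piFinset_univ]
  refine Finset.sum_congr rfl fun f _ => ?_
  rw [mono_apply, mono_apply, Finset.prod_mul_distrib]

theorem PP_add {ι : Type} [Fintype ι] [DecidableEq ι] (Φ Φ' Ψ : OForm k V Ω ι) :
    PP e e' (Φ + Φ') Ψ = PP e e' Φ Ψ + PP e e' Φ' Ψ := by
  unfold PP
  rw [← Finset.sum_add_distrib]
  exact Finset.sum_congr rfl fun f _ => by rw [MultilinearMap.add_apply, add_mul]

theorem PP_smul {ι : Type} [Fintype ι] [DecidableEq ι] (a : Ω) (Φ Ψ : OForm k V Ω ι) :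
    PP e e' (a • Φ) Ψ = a * PP e e' Φ Ψ := by
  unfold PP
  rw [Finset.mul_sum]
  exact Finset.sum_congr rfl fun f _ => by rw [MultilinearMap.smul_apply, smul_eq_mul, mul_assoc]

theorem PP_incl {ι : Type} [Fintype ι] [DecidableEq ι] (φ ψ : Form k V ι) :
    PP e e' (incl Ω φ) (incl Ω ψ) = algebraMap k Ω (pairing e e' φ ψ) := by
  unfold PP pairing
  rw [map_sum]
  refine Finset.sum_congr rfl fun f _ => ?_
  rw [map_mul]
  rfl

theorem PP_smul_right {ι : Type} [Fintype ι] [DecidableEq ι] (a : Ω) (Φ Ψ : OForm k V Ω ι) :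
    PP e e' Φ (a • Ψ) = a * PP e e' Φ Ψ := by
  unfold PP
  rw [Finset.mul_sum]
  exact Finset.sum_congr rfl fun f _ => by
    rw [MultilinearMap.smul_apply, smul_eq_mul]; ring

theorem PP_add_right {ι : Type} [Fintype ι] [DecidableEq ι] (Φ Ψ Ψ' : OForm k V Ω ι) :
    PP e e' Φ (Ψ + Ψ') = PP e e' Φ Ψ + PP e e' Φ Ψ' := by
  unfold PP
  rw [← Finset.sum_add_distrib]
  exact Finset.sum_congr rfl fun f _ => by rw [MultilinearMap.add_apply, mul_add]

section basis

variable {A : Type} [Fintype A] [DecidableEq A] (x : Basis A Ω (V →ₗ[k] Ω))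

/-- The dual system for the form `pp`. -/
def dual (a : A) : V →ₗ[k] Ω := ∑ j, x.repr (co e Ω j) a • co e' Ω j

theorem dual_apply (a : A) (j : J) : dual e e' x a (e' j) = x.repr (co e Ω j) a := by
  unfold dual
  rw [LinearMap.sum_apply, Finset.sum_eq_single j]
  · rw [LinearMap.smul_apply, co_apply, Basis.repr_self, Finsupp.single_eq_same, map_one,
      smul_eq_mul, mul_one]
  · intro l _ hl
    rw [LinearMap.smul_apply, co_apply, Basis.repr_self, Finsupp.single_eq_of_ne hl, map_zero,
      smul_zero]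
  · intro h
    exact absurd (Finset.mem_univ _) h

theorem pp_dual (z : V →ₗ[k] Ω) (a : A) : pp e e' z (dual e e' x a) = x.repr z a := by
  unfold pp
  conv_rhs => rw [eq_sum_co e z]
  rw [map_sum, Finsupp.finset_sum_apply]
  refine Finset.sum_congr rfl fun j _ => ?_
  rw [dual_apply, map_smul, Finsupp.smul_apply, smul_eq_mul]

/-- Expansion of a form. -/
theorem expand {ι : Type} [Fintype ι] [DecidableEq ι] (Φ : OForm k V Ω ι) :
    Φ = ∑ g : ι → A, PP e e' Φ (mono fun i => dual e e' x (g i)) • mono fun i => x (g i) := by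
  refine Basis.ext_multilinear (fun _ => e) fun f => ?_
  have h1 : ∀ l j : J, ∑ a, dual e e' x a (e' j) * x a (e l) = if j = l then 1 else 0 := by
    intro l j
    have h2 := congrArg (fun z : V →ₗ[k] Ω => z (e l)) (x.sum_repr (co e Ω j))
    simp only [LinearMap.sum_apply, LinearMap.smul_apply, smul_eq_mul] at h2
    rw [co_apply, Basis.repr_self] at h2
    simp only [dual_apply]
    rw [h2, Finsupp.single_apply]
    by_cases hjl : j = l
    · rw [if_pos hjl, if_pos hjl.symm, map_one]
    · rw [if_neg hjl, if_neg (Ne.symm hjl), map_zero]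
  rw [MultilinearMap.sum_apply]
  have h3 : ∀ g : ι → A, ((PP e e' Φ (mono fun i => dual e e' x (g i))) •
      (mono fun i => x (g i)) : OForm k V Ω ι) (fun i => e (f i)) =
      ∑ f' : ι → J, Φ (fun i => e (f' i)) *
        ∏ i, (dual e e' x (g i) (e' (f' i)) * x (g i) (e (f i))) := by
    intro g
    rw [MultilinearMap.smul_apply, smul_eq_mul, PP, Finset.sum_mul]
    refine Finset.sum_congr rfl fun f' _ => ?_
    rw [mono_apply, mono_apply, Finset.prod_mul_distrib]
    ring
  rw [Finset.sum_congr rfl (fun g _ => h3 g), Finset.sum_comm]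
  have h4 : ∀ f' : ι → J, ∑ g : ι → A, Φ (fun i => e (f' i)) *
        ∏ i, (dual e e' x (g i) (e' (f' i)) * x (g i) (e (f i))) =
      Φ (fun i => e (f' i)) * ∏ i, (if f' i = f i then (1 : Ω) else 0) := by
    intro f'
    rw [← Finset.mul_sum]
    congr 1
    have h5 := Finset.prod_univ_sum (fun _ : ι => (Finset.univ : Finset A))
      (fun i a => dual e e' x a (e' (f' i)) * x a (e (f i)))
    rw [Fintype.piFinset_univ] at h5
    rw [← h5]
    exact Finset.prod_congr rfl fun i _ => h1 _ _
  rw [Finset.sum_congr rfl (fun f' _ => h4 f'), Finset.sum_eq_single f]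
  · simp
  · intro f' _ hf'
    obtain ⟨i, hi⟩ := Function.ne_iff.1 hf'
    rw [Finset.prod_eq_zero (Finset.mem_univ i) (if_neg hi), mul_zero]
  · intro h
    exact absurd (Finset.mem_univ _) h

end basis

end

end Pool.Agent.TH776.DN
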