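import Pool.Agent.TH776.DN.Stab

/-!
# Tuples of eigenvalues that occur in algebraic classes
-/

set_option linter.unusedSectionVars false
set_option linter.unusedVariables false
set_option linter.deprecated false

namespace Pool.Agent.TH776.DN

open Module Finset

noncomputable section

variable {k V Ω : Type} [Field k] [AddCommGroup V] [Module k V] [Field Ω] [Algebra k Ω]
variable {J : Type} [Fintype J] [DecidableEq J] {e e' : Basis J k V}
  {F : V →ₗ[k] V} {q : k} {Z : (ι : Type) → Submodule k (Form k V ι)}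
  {ω : V →ₗ[k] V →ₗ[k] k}
  {A : Type} [Fintype A] [DecidableEq A] {x : Basis A Ω (V →ₗ[k] Ω)} {lam : A → Ω}

section form

theorem repr_e (hdual : ∀ i j, ω (e i) (e' j) = if i = j then 1 else 0) (v : V) (j : J) :
    e.repr v j = ω v (e' j) := by
  conv_rhs => rw [← e.sum_repr v]
  rw [map_sum, LinearMap.sum_apply, Finset.sum_eq_single j]
  · rw [map_smul, LinearMap.smul_apply, hdual, if_pos rfl, smul_eq_mul, mul_one]
  · intro i _ hi
    rw [map_smul, LinearMap.smul_apply, hdual, if_neg hi, smul_zero]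
  · intro h
    exact absurd (Finset.mem_univ _) h

theorem repr_e' (hdual : ∀ i j, ω (e i) (e' j) = if i = j then 1 else 0) (v : V) (j : J) :
    e'.repr v j = ω (e j) v := by
  conv_rhs => rw [← e'.sum_repr v]
  rw [map_sum, Finset.sum_eq_single j]
  · rw [map_smul, hdual, if_pos rfl, smul_eq_mul, mul_one]
  · intro i _ hi
    rw [map_smul, hdual, if_neg (Ne.symm hi), smul_zero]
  · intro h
    exact absurd (Finset.mem_univ _) h

theorem F_inj (hdual : ∀ i j, ω (e i) (e' j) = if i = j then 1 else 0) (hq : q ≠ 0)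
    (hF : ∀ u v, ω (F u) (F v) = q * ω u v) : Function.Injective F := by
  intro u v huv
  apply e.repr.injective
  ext j
  have h1 := hF u (e' j)
  have h2 := hF v (e' j)
  rw [huv, h2] at h1
  rw [repr_e hdual, repr_e hdual]
  exact (mul_left_cancel₀ hq h1).symm

theorem F_surj (hdual : ∀ i j, ω (e i) (e' j) = if i = j then 1 else 0) (hq : q ≠ 0)
    (hF : ∀ u v, ω (F u) (F v) = q * ω u v) : Function.Surjective F := by
  have : FiniteDimensional k V := Module.Finite.of_basis e
  exact LinearMap.injective_iff_surjective.1 (F_inj hdual hq hF)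

/-- The form on the dual space is multiplied by `q`. -/
theorem pp_equiv (hdual : ∀ i j, ω (e i) (e' j) = if i = j then 1 else 0) (hq : q ≠ 0)
    (hF : ∀ u v, ω (F u) (F v) = q * ω u v) (z z' : V →ₗ[k] Ω) :
    pp e e' (z ∘ₗ F) (z' ∘ₗ F) = algebraMap k Ω q * pp e e' z z' := by
  have hsurj := F_surj hdual hq hF
  choose G hG using hsurj
  have h1 : ∀ j, z (F (e j)) = ∑ i, algebraMap k Ω (ω (F (e j)) (e' i)) * z (e i) := by
    intro j
    conv_lhs => rw [← e.sum_repr (F (e j))]
    rw [map_sum]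
    refine Finset.sum_congr rfl fun i _ => ?_
    rw [map_smul, repr_e hdual, Algebra.smul_def]
  have h2 : ∀ i, ∑ j, algebraMap k Ω (ω (F (e j)) (e' i)) * z' (F (e' j)) =
      algebraMap k Ω q * z' (e' i) := by
    intro i
    have h3 : ∀ j, ω (F (e j)) (e' i) = q * ω (e j) (G (e' i)) := by
      intro j
      conv_lhs => rw [← hG (e' i)]
      rw [hF]
    have h4 : e' i = ∑ j, ω (e j) (G (e' i)) • F (e' j) := by
      conv_lhs => rw [← hG (e' i), ← e'.sum_repr (G (e' i))]
      rw [map_sum]
      exact Finset.sum_congr rfl fun j _ => by rw [map_smul, repr_e' hdual]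
    conv_rhs => rw [h4, map_sum, Finset.mul_sum]
    refine Finset.sum_congr rfl fun j _ => ?_
    rw [h3, map_mul, map_smul, Algebra.smul_def, mul_assoc]
  unfold pp
  simp only [LinearMap.comp_apply]
  rw [Finset.sum_congr rfl (fun j _ => by rw [h1 j, Finset.sum_mul]), Finset.sum_comm,
    Finset.mul_sum]
  refine Finset.sum_congr rfl fun i _ => ?_
  have h5 := congrArg (fun t => z (e i) * t) (h2 i)
  simp only [Finset.mul_sum] at h5
  rw [← mul_assoc, mul_comm (algebraMap k Ω q), mul_assoc, ← h5]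
  exact Finset.sum_congr rfl fun j _ => by ring

end form

section eigen

variable (hx : ∀ a, x a ∘ₗ F = lam a • x a)

include hx in
theorem repr_comp (z : V →ₗ[k] Ω) (a : A) : x.repr (z ∘ₗ F) a = lam a * x.repr z a := by
  have h1 : z ∘ₗ F = ∑ b, (x.repr z b * lam b) • x b := by
    conv_lhs => rw [← x.sum_repr z]
    ext v
    rw [LinearMap.comp_apply, LinearMap.sum_apply, LinearMap.sum_apply]
    refine Finset.sum_congr rfl fun b _ => ?_
    have h2 := LinearMap.congr_fun (hx b) v
    rw [LinearMap.comp_apply] at h2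
    rw [LinearMap.smul_apply, h2, LinearMap.smul_apply, LinearMap.smul_apply, smul_smul]
  rw [h1, map_sum, Finsupp.finset_sum_apply, Finset.sum_eq_single a]
  · rw [map_smul, Basis.repr_self, Finsupp.smul_apply, Finsupp.single_eq_same, smul_eq_mul,
      mul_one, mul_comm]
  · intro b _ hb
    rw [map_smul, Basis.repr_self, Finsupp.smul_apply, Finsupp.single_eq_of_ne (Ne.symm hb),
      smul_zero]
  · intro h
    exact absurd (Finset.mem_univ _) h

include hx in
theorem repr_comp_pow (n : ℕ) (z : V →ₗ[k] Ω) (a : A) :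
    x.repr (z ∘ₗ (F ^ n)) a = lam a ^ n * x.repr z a := by
  induction n generalizing z with
  | zero => simp [Module.End.one_eq_id]
  | succ n ih =>
    have h1 : z ∘ₗ (F ^ (n + 1)) = (z ∘ₗ (F ^ n)) ∘ₗ F := by
      rw [pow_succ]; rfl
    rw [h1, repr_comp hx, ih, pow_succ]
    ring

include hx in
theorem eig_of_ne {z : V →ₗ[k] Ω} (hz : z ≠ 0) {μ : Ω} (h : z ∘ₗ F = μ • z) :
    ∃ a, lam a = μ := by
  obtain ⟨a, ha⟩ : ∃ a, x.repr z a ≠ 0 := by
    by_contra hall
    push Not at hall
    apply hz
    apply x.repr.injective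
    ext a
    rw [hall a, map_zero]
    rfl
  refine ⟨a, ?_⟩
  have h1 := repr_comp hx z a
  rw [h, map_smul, Finsupp.smul_apply, smul_eq_mul] at h1
  exact (mul_right_cancel₀ ha h1).symm

include hx in
theorem lam_ne (hinj : Function.Surjective F) (a : A) : lam a ≠ 0 := by
  intro h0
  have h1 : x a = 0 := by
    ext v
    obtain ⟨u, rfl⟩ := hinj v
    have h2 := LinearMap.congr_fun (hx a) u
    rw [h0, zero_smul] at h2
    exact h2
  exact x.ne_zero a h1

include hx in
/-- The dual system consists of eigenvectors. -/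
theorem dual_eig (hdual : ∀ i j, ω (e i) (e' j) = if i = j then 1 else 0) (hq : q ≠ 0)
    (hF : ∀ u v, ω (F u) (F v) = q * ω u v) (a : A) :
    dual e e' x a ∘ₗ F = (algebraMap k Ω q / lam a) • dual e e' x a := by
  have hbij : Function.Bijective F := ⟨F_inj hdual hq hF, F_surj hdual hq hF⟩
  have hla := lam_ne hx hbij.2 a
  let Fe : V ≃ₗ[k] V := LinearEquiv.ofBijective F hbij
  -- pairing with all forms
  have h1 : ∀ z : V →ₗ[k] Ω, pp e e' z (dual e e' x a ∘ₗ F) =
      (algebraMap k Ω q / lam a) * pp e e' z (dual e e' x a) := by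
    intro z
    have h2 : z = (z ∘ₗ (Fe.symm : V →ₗ[k] V)) ∘ₗ F := by
      ext v
      exact congrArg z (Fe.symm_apply_apply v).symm
    have h3 := repr_comp hx (z ∘ₗ (Fe.symm : V →ₗ[k] V)) a
    rw [← h2] at h3
    conv_lhs => rw [h2]
    rw [pp_equiv hdual hq hF, pp_dual, pp_dual, h3]
    field_simp
  refine e'.ext fun j => ?_
  have h4 : ∀ y : V →ₗ[k] Ω, pp e e' (co e Ω j) y = y (e' j) := by
    intro y
    unfold pp
    rw [Finset.sum_eq_single j]
    · rw [co_apply, Basis.repr_self, Finsupp.single_eq_same, map_one, one_mul]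
    · intro l _ hl
      rw [co_apply, Basis.repr_self, Finsupp.single_eq_of_ne (Ne.symm hl), map_zero, zero_mul]
    · intro h
      exact absurd (Finset.mem_univ _) h
  rw [← h4, h1, h4]
  rfl

end eigen

section good

variable (F Z lam)

/-- The eigenvalues. -/
abbrev Eig : Type := Set.range lam

/-- All products of eigenvectors with these eigenvalues are combinations of algebraic classes. -/
def Good {ι : Type} [Fintype ι] (μ : ι → Eig lam) : Prop :=
  ∀ z : ι → (V →ₗ[k] Ω), (∀ i, z i ∘ₗ F = (μ i : Ω) • z i) → mono z ∈ ZO Ω Z ι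

end good

variable {B : Type} (b : Basis B k Ω)

include b in
/-- Components of algebraic classes. -/
theorem good_of_coeff (hx : ∀ a, x a ∘ₗ F = lam a • x a) (hZ : IsAlgebraicSystem F q e e' Z)
    {ι : Type} [Fintype ι] [DecidableEq ι] {Φ : OForm k V Ω ι} (hΦ : Φ ∈ ZO Ω Z ι) (f : ι → A)
    (hc : PP e e' Φ (mono fun i => dual e e' x (f i)) ≠ 0) :
    Good F Z lam (fun i => (⟨lam (f i), f i, rfl⟩ : Eig lam)) := by
  classical
  intro z hz
  have hT : ∀ i, ∃ T : Finset B, ∀ w v, ((x.coord (f i)).smulRight (z i)) w v =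
      ∑ β ∈ T, b β * w (opc e b ((x.coord (f i)).smulRight (z i)) β v) :=
    fun i => op_sum e b ((x.coord (f i)).smulRight (z i))
  choose T hT using hT
  have h1 := operators e e' b x f z T hT Φ
  have h2 : (PP e e' Φ (mono fun i => dual e e' x (f i))) • mono z ∈ ZO Ω Z ι := by
    rw [← h1]
    refine Submodule.sum_mem _ fun β _ => Submodule.smul_mem _ _ (ZO_pull hZ hΦ _ fun i => ?_)
    refine ⟨1, one_pos, fun v => ?_⟩
    rw [pow_one]
    refine opc_comm e b (fun w => ?_) (β i) v
    change x.coord (f i) (w ∘ₗ F) • z i = (x.coord (f i) w • z i) ∘ₗ F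
    rw [Basis.coord_apply, repr_comp hx, LinearMap.smul_comp, hz i, smul_smul, Basis.coord_apply,
      mul_comm]
  have h3 := Submodule.smul_mem _ (PP e e' Φ (mono fun i => dual e e' x (f i)))⁻¹ h2
  rwa [smul_smul, inv_mul_cancel₀ hc, one_smul] at h3

theorem good_gal (g : Ω ≃ₐ[k] Ω) {ι : Type} [Fintype ι] {μ ν : ι → Eig lam}
    (h : Good F Z lam μ) (hν : ∀ i, (ν i : Ω) = g (μ i)) : Good F Z lam ν := by
  intro z hz
  have h1 : mono z = (g.toLinearMap).compMultilinearMap
      (mono fun i => (g.symm.toLinearMap) ∘ₗ z i) := by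
    ext v
    rw [LinearMap.compMultilinearMap_apply, mono_apply, mono_apply]
    change _ = g (∏ i, g.symm (z i (v i)))
    rw [map_prod]
    exact Finset.prod_congr rfl fun i _ => (g.apply_symm_apply _).symm
  rw [h1]
  refine ZO_gal g (h _ fun i => ?_)
  ext v
  have h2 := LinearMap.congr_fun (hz i) v
  change g.symm (z i (F v)) = (μ i : Ω) * g.symm (z i v)
  have h3 : z i (F v) = (ν i : Ω) * z i v := h2
  rw [h3, hν, map_mul, g.symm_apply_apply]

theorem good_sum (hZ : IsAlgebraicSystem F q e e' Z) {ι κ : Type} [Fintype ι] [Fintype κ]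
    {μ : ι → Eig lam} {ν : κ → Eig lam} (hμ : Good F Z lam μ) (hν : Good F Z lam ν) :
    Good F Z lam (Sum.elim μ ν) := by
  intro z hz
  have h1 : mono z = tens (mono fun i => z (Sum.inl i)) (mono fun j => z (Sum.inr j)) := by
    ext v
    rw [tens_apply, mono_apply, mono_apply, mono_apply, Fintype.prod_sum_type]
  rw [h1]
  exact ZO_tens hZ (hμ _ fun i => hz (Sum.inl i)) (hν _ fun j => hz (Sum.inr j))

theorem good_equiv (hZ : IsAlgebraicSystem F q e e' Z) {ι κ : Type} [Fintype ι] [Fintype κ]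
    {μ : ι → Eig lam} {ν : κ → Eig lam} (σ : ι ≃ κ) (hσ : ∀ i, ν (σ i) = μ i)
    (hμ : Good F Z lam μ) : Good F Z lam ν := by
  intro z hz
  have h1 : mono z = (mono fun i => z (σ i)).domDomCongr σ := by
    ext v
    rw [MultilinearMap.domDomCongr_apply, mono_apply, mono_apply]
    exact (Equiv.prod_comp σ (fun j => z j (v j))).symm
  rw [h1]
  refine ZO_reindex hZ σ (hμ _ fun i => ?_)
  rw [hz (σ i), hσ]

/-- Contraction. -/
theorem good_contract (hx : ∀ a, x a ∘ₗ F = lam a • x a) (hZ : IsAlgebraicSystem F q e e' Z)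
    (hdual : ∀ i j, ω (e i) (e' j) = if i = j then 1 else 0) (hq : q ≠ 0)
    (hF : ∀ u v, ω (F u) (F v) = q * ω u v) {ι : Type} [Fintype ι] {μ : ι → Eig lam}
    {α α' : Eig lam} (hα : (α' : Ω) = algebraMap k Ω q / α)
    (h : Good F Z lam (Sum.elim μ ![α, α'])) : Good F Z lam μ := by
  intro z hz
  obtain ⟨a, ha⟩ := α.2
  have h1 := h (Sum.elim z ![x a, dual e e' x a]) (by
    rintro (i | i)
    · exact hz i
    · fin_cases i
      · change x a ∘ₗ F = (α : Ω) • x a
        rw [hx, ha]
      · change dual e e' x a ∘ₗ F = (α' : Ω) • dual e e' x a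
        rw [dual_eig hx hdual hq hF, hα, ha])
  have h2 := ZO_contract hZ h1
  have h3 : ∑ j, fix (mono (Sum.elim z ![x a, dual e e' x a])) ![e j, e' j] = mono z := by
    ext v
    rw [MultilinearMap.sum_apply]
    have h4 : ∀ j, fix (mono (Sum.elim z ![x a, dual e e' x a])) ![e j, e' j] v =
        mono z v * (x a (e j) * dual e e' x a (e' j)) := by
      intro j
      rw [fix_apply, mono_apply, mono_apply, Fintype.prod_sum_type, Fin.prod_univ_two]
      rfl
    rw [Finset.sum_congr rfl (fun j _ => h4 j), ← Finset.mul_sum]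
    have h5 : ∑ j, x a (e j) * dual e e' x a (e' j) = 1 := by
      have h6 := pp_dual e e' x (x a) a
      rw [Basis.repr_self, Finsupp.single_eq_same] at h6
      exact h6
    rw [h5, mul_one]
  rwa [h3] at h2

/-- Good tuples satisfy the relation of Tate classes. -/
theorem good_rel (hx : ∀ a, x a ∘ₗ F = lam a • x a) (hZ : IsAlgebraicSystem F q e e' Z)
    {ι : Type} [Fintype ι] {μ : ι → Eig lam} (h : Good F Z lam μ) :
    ∃ s : ℕ, 0 < s ∧ ∏ i, (μ i : Ω) ^ (2 * s) = (algebraMap k Ω q) ^ (s * Fintype.card ι) := by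
  classical
  choose a ha using fun i => (μ i).2
  have h1 := h (fun i => x (a i)) (fun i => by rw [hx, ha])
  obtain ⟨s, hs, h2⟩ := ZO_tate hZ h1
  refine ⟨s, hs, ?_⟩
  -- a point where the product does not vanish
  have hne : ∃ v : ι → V, mono (fun i => x (a i)) v ≠ 0 := by
    have h3 : ∀ i, ∃ v, x (a i) v ≠ 0 := by
      intro i
      by_contra hall
      push Not at hall
      exact x.ne_zero (a i) (LinearMap.ext hall)
    choose v hv using h3
    exact ⟨v, by rw [mono_apply]; exact Finset.prod_ne_zero_iff.2 fun i _ => hv i⟩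
  obtain ⟨v, hv⟩ := hne
  have h4 := h2 v
  have hpow : ∀ (n : ℕ) (c : A) (u : V), x c ((F ^ n) u) = lam c ^ n * x c u := by
    intro n c
    induction n with
    | zero => intro u; simp
    | succ n ih =>
      intro u
      have h5 : (F ^ (n + 1)) u = (F ^ n) (F u) := by rw [pow_succ]; rfl
      have h6 := LinearMap.congr_fun (hx c) u
      rw [h5, ih, pow_succ]
      change x c (F u) = lam c * x c u at h6
      rw [h6]
      ring
  have h5 : mono (fun i => x (a i)) (fun i => (F ^ (2 * s)) (v i)) =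
      (∏ i, (μ i : Ω) ^ (2 * s)) * mono (fun i => x (a i)) v := by
    rw [mono_apply, mono_apply, ← Finset.prod_mul_distrib]
    refine Finset.prod_congr rfl fun i _ => ?_
    rw [hpow, ha]
  rw [h5, Nat.card_eq_fintype_card] at h4
  exact mul_right_cancel₀ hv h4

end

end Pool.Agent.TH776.DN
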