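import Pool.Agent.TH776.DN.Good

/-!
# Sums over the conjugates of a tuple of eigenvalues
-/

set_option linter.unusedSectionVars false
set_option linter.unusedVariables false
set_option linter.deprecated false

namespace Pool.Agent.TH776.DN

open Module Finset

noncomputable section

section count

variable {E : Type} [DecidableEq E]

/-- The number of indices with a given value. -/
def cnt {ι : Type} [Fintype ι] (μ : ι → E) (α : E) : ℕ := ∑ i, if μ i = α then 1 else 0

theorem cnt_eq_card {ι : Type} [Fintype ι] (μ : ι → E) (α : E) :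
    cnt μ α = Fintype.card {i // μ i = α} := by
  unfold cnt
  rw [Fintype.card_subtype, Finset.card_filter]

theorem equiv_of_cnt {ι κ : Type} [Fintype ι] [Fintype κ] {μ : ι → E} {ν : κ → E}
    (h : ∀ α, cnt μ α = cnt ν α) : ∃ σ : ι ≃ κ, ∀ i, ν (σ i) = μ i := by
  have h1 : ∀ α, Nonempty ({i // μ i = α} ≃ {j // ν j = α}) := by
    intro α
    rw [← Fintype.card_eq, ← cnt_eq_card, ← cnt_eq_card]
    exact h α
  let f := fun α => (h1 α).some
  refine ⟨(Equiv.sigmaFiberEquiv μ).symm.trans
    ((Equiv.sigmaCongrRight fun α => (f α)).trans (Equiv.sigmaFiberEquiv ν)), fun i => ?_⟩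
  exact ((f (μ i)) ⟨i, rfl⟩).2

theorem cnt_sum {ι κ : Type} [Fintype ι] [Fintype κ] (μ : ι → E) (ν : κ → E) (α : E) :
    cnt (Sum.elim μ ν) α = cnt μ α + cnt ν α := by
  unfold cnt
  rw [Fintype.sum_sum_type]
  rfl

theorem cnt_sigma [Fintype E] (n : E → ℕ) (β : E) :
    cnt (fun p : Σ α : E, Fin (n α) => p.1) β = n β := by
  unfold cnt
  rw [Fintype.sum_sigma, Finset.sum_eq_single β]
  · simp
  · intro α _ hα
    exact Finset.sum_eq_zero fun i _ => if_neg hα
  · intro h
    exact absurd (Finset.mem_univ _) h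

theorem cnt_two (α α' β : E) : cnt ![α, α'] β = Pi.single (M := fun _ => ℕ) α 1 β +
    Pi.single (M := fun _ => ℕ) α' 1 β := by
  unfold cnt
  rw [Fin.sum_univ_two, Pi.single_apply, Pi.single_apply]
  change (if α = β then 1 else 0) + (if α' = β then 1 else 0) = _
  congr 1
  · by_cases h : α = β
    · rw [if_pos h, if_pos h.symm]
    · rw [if_neg h, if_neg (Ne.symm h)]
  · by_cases h : α' = β
    · rw [if_pos h, if_pos h.symm]
    · rw [if_neg h, if_neg (Ne.symm h)]

theorem cnt_comp {ι : Type} [Fintype ι] (μ : ι → E) (π : Equiv.Perm E) (α : E) :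
    cnt (fun i => π (μ i)) α = cnt μ (π.symm α) := by
  unfold cnt
  refine Finset.sum_congr rfl fun i _ => ?_
  by_cases h : π (μ i) = α
  · rw [if_pos h, if_pos (by rw [← h, Equiv.symm_apply_apply])]
  · rw [if_neg h, if_neg (fun h' => h (by rw [h', Equiv.apply_symm_apply]))]

end count

variable {k V Ω : Type} [Field k] [AddCommGroup V] [Module k V] [Field Ω] [Algebra k Ω]
variable {J : Type} [Fintype J] [DecidableEq J] {e e' : Basis J k V}
  {F : V →ₗ[k] V} {q : k} {Z : (ι : Type) → Submodule k (Form k V ι)}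
  {ω : V →ₗ[k] V →ₗ[k] k}
  {A : Type} [Fintype A] [DecidableEq A] {x : Basis A Ω (V →ₗ[k] Ω)} {lam : A → Ω}

section perm

/-- The automorphisms permute the eigenvalues. -/
theorem gal_mem (hx : ∀ a, x a ∘ₗ F = lam a • x a) (g : Ω ≃ₐ[k] Ω) (α : Eig lam) :
    g α ∈ Set.range lam := by
  obtain ⟨a, ha⟩ := α.2
  have h1 : (g.toLinearMap ∘ₗ x a) ∘ₗ F = g α • (g.toLinearMap ∘ₗ x a) := by
    ext v
    have h2 := LinearMap.congr_fun (hx a) v
    change g (x a (F v)) = g α * g (x a v)
    change x a (F v) = lam a * x a v at h2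
    rw [h2, map_mul, ha]
  obtain ⟨a', ha'⟩ := eig_of_ne hx (z := g.toLinearMap ∘ₗ x a) (fun h0 => x.ne_zero a (by
    ext v
    have h3 := LinearMap.congr_fun h0 v
    change g (x a v) = 0 at h3
    exact (map_eq_zero g).1 h3)) h1
  exact ⟨a', ha'⟩

/-- The permutation of the eigenvalues given by an automorphism. -/
def galPerm (hx : ∀ a, x a ∘ₗ F = lam a • x a) (g : Ω ≃ₐ[k] Ω) : Equiv.Perm (Eig lam) where
  toFun α := ⟨g α, gal_mem hx g α⟩
  invFun α := ⟨g.symm α, gal_mem hx g.symm α⟩
  left_inv α := Subtype.ext (g.symm_apply_apply _)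
  right_inv α := Subtype.ext (g.apply_symm_apply _)

theorem bar_mem (hx : ∀ a, x a ∘ₗ F = lam a • x a)
    (hdual : ∀ i j, ω (e i) (e' j) = if i = j then 1 else 0) (hq : q ≠ 0)
    (hF : ∀ u v, ω (F u) (F v) = q * ω u v) (α : Eig lam) :
    algebraMap k Ω q / (α : Ω) ∈ Set.range lam := by
  obtain ⟨a, ha⟩ := α.2
  have h1 := dual_eig hx hdual hq hF a
  obtain ⟨a', ha'⟩ := eig_of_ne hx (z := dual e e' x a) (fun h0 => by
    have h2 := pp_dual e e' x (x a) a
    rw [h0, Basis.repr_self, Finsupp.single_eq_same] at h2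
    have h3 : pp e e' (x a) (0 : V →ₗ[k] Ω) = 0 := by
      unfold pp
      exact Finset.sum_eq_zero fun j _ => by rw [LinearMap.zero_apply, mul_zero]
    rw [h3] at h2
    exact zero_ne_one h2) h1
  exact ⟨a', by rw [ha', ha]⟩

/-- The duality on the eigenvalues. -/
def bar (hx : ∀ a, x a ∘ₗ F = lam a • x a)
    (hdual : ∀ i j, ω (e i) (e' j) = if i = j then 1 else 0) (hq : q ≠ 0)
    (hF : ∀ u v, ω (F u) (F v) = q * ω u v) : Equiv.Perm (Eig lam) where
  toFun α := ⟨algebraMap k Ω q / α, bar_mem hx hdual hq hF α⟩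
  invFun α := ⟨algebraMap k Ω q / α, bar_mem hx hdual hq hF α⟩
  left_inv α := Subtype.ext (by
    obtain ⟨a, ha⟩ := α.2
    have h1 : (α : Ω) ≠ 0 := by rw [← ha]; exact lam_ne hx (F_surj hdual hq hF) a
    have h2 : algebraMap k Ω q ≠ 0 := (map_ne_zero _).2 hq
    change algebraMap k Ω q / (algebraMap k Ω q / (α : Ω)) = α
    field_simp)
  right_inv α := Subtype.ext (by
    obtain ⟨a, ha⟩ := α.2
    have h1 : (α : Ω) ≠ 0 := by rw [← ha]; exact lam_ne hx (F_surj hdual hq hF) a
    have h2 : algebraMap k Ω q ≠ 0 := (map_ne_zero _).2 hq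
    change algebraMap k Ω q / (algebraMap k Ω q / (α : Ω)) = α
    field_simp)

theorem bar_coe (hx : ∀ a, x a ∘ₗ F = lam a • x a)
    (hdual : ∀ i j, ω (e i) (e' j) = if i = j then 1 else 0) (hq : q ≠ 0)
    (hF : ∀ u v, ω (F u) (F v) = q * ω u v) (α : Eig lam) :
    ((bar hx hdual hq hF α : Eig lam) : Ω) = algebraMap k Ω q / α := rfl

end perm

section main

variable [DecidableEq (Eig lam)] [Fintype (Eig lam)]

variable (F Z lam) in
/-- Goodness of a function of multiplicities. -/
def GoodN (n : Eig lam → ℕ) : Prop :=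
  Good F Z lam (fun p : Σ α : Eig lam, Fin (n α) => p.1)

theorem good_iff (hZ : IsAlgebraicSystem F q e e' Z) {ι : Type} [Fintype ι] {μ : ι → Eig lam} :
    Good F Z lam μ ↔ GoodN F Z lam (cnt μ) := by
  obtain ⟨σ, hσ⟩ := equiv_of_cnt (μ := μ) (ν := fun p : Σ α : Eig lam, Fin (cnt μ α) => p.1)
    (fun α => (cnt_sigma (cnt μ) α).symm)
  constructor
  · exact fun h => good_equiv hZ σ hσ h
  · exact fun h => good_equiv hZ σ.symm (fun p => by rw [← hσ, Equiv.apply_symm_apply]) h

theorem good_of_cnt (hZ : IsAlgebraicSystem F q e e' Z) {ι : Type} [Fintype ι]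
    {μ : ι → Eig lam} {n : Eig lam → ℕ} (hn : GoodN F Z lam n) (h : ∀ α, cnt μ α = n α) :
    Good F Z lam μ := by
  have h1 : cnt μ = n := funext h
  rw [good_iff hZ, h1]
  exact hn

theorem goodN_of_cnt (hZ : IsAlgebraicSystem F q e e' Z) {ι : Type} [Fintype ι]
    {μ : ι → Eig lam} {n : Eig lam → ℕ} (hμ : Good F Z lam μ) (h : ∀ α, cnt μ α = n α) :
    GoodN F Z lam n := by
  have h1 : cnt μ = n := funext h
  rw [← h1, ← good_iff hZ]
  exact hμ

theorem goodN_add (hZ : IsAlgebraicSystem F q e e' Z) {n n' : Eig lam → ℕ}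
    (h : GoodN F Z lam n) (h' : GoodN F Z lam n') : GoodN F Z lam (n + n') :=
  goodN_of_cnt hZ (good_sum hZ h h') fun α => by
    rw [cnt_sum, cnt_sigma, cnt_sigma]
    rfl

theorem goodN_zero (hZ : IsAlgebraicSystem F q e e' Z) : GoodN F Z lam 0 := by
  intro z hz
  have hempty : IsEmpty (Σ α : Eig lam, Fin ((0 : Eig lam → ℕ) α)) :=
    ⟨fun p => Nat.not_lt_zero _ p.2.isLt⟩
  have h1 : mono z = incl Ω (MultilinearMap.constOfIsEmpty k
      (fun _ : (Σ α : Eig lam, Fin ((0 : Eig lam → ℕ) α)) => V) (1 : k)) := by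
    ext v
    rw [mono_apply, incl_apply]
    change _ = algebraMap k Ω 1
    rw [map_one]
    exact Finset.prod_of_isEmpty _
  rw [h1]
  exact incl_mem (hZ.unit _ _)

theorem goodN_sum (hZ : IsAlgebraicSystem F q e e' Z) {S : Type} (s : Finset S)
    (n : S → Eig lam → ℕ) (h : ∀ i ∈ s, GoodN F Z lam (n i)) : GoodN F Z lam (∑ i ∈ s, n i) := by
  classical
  induction s using Finset.induction_on with
  | empty =>
    rw [Finset.sum_empty]
    exact goodN_zero hZ
  | insert i s hi ih =>
    rw [Finset.sum_insert hi]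
    exact goodN_add hZ (h i (Finset.mem_insert_self i s))
      (ih fun j hj => h j (Finset.mem_insert_of_mem hj))

theorem goodN_gal (hx : ∀ a, x a ∘ₗ F = lam a • x a) (hZ : IsAlgebraicSystem F q e e' Z)
    {n : Eig lam → ℕ} (h : GoodN F Z lam n) {π : Equiv.Perm (Eig lam)} {g : Ω ≃ₐ[k] Ω}
    (hπ : ∀ α, (π α : Ω) = g α) : GoodN F Z lam (fun α => n (π α)) := by
  have h1 : Good F Z lam (fun p : Σ α : Eig lam, Fin (n α) => π.symm p.1) := by
    refine good_gal g.symm h fun p => ?_
    rw [AlgEquiv.eq_symm_apply, ← hπ, Equiv.apply_symm_apply]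
  refine goodN_of_cnt hZ h1 fun α => ?_
  have h2 := cnt_comp (fun p : Σ α : Eig lam, Fin (n α) => p.1) π.symm α
  rw [h2, cnt_sigma]
  rfl

/-- Cancellation of dual pairs. -/
theorem goodN_cancel (hx : ∀ a, x a ∘ₗ F = lam a • x a) (hZ : IsAlgebraicSystem F q e e' Z)
    (hdual : ∀ i j, ω (e i) (e' j) = if i = j then 1 else 0) (hq : q ≠ 0)
    (hF : ∀ u v, ω (F u) (F v) = q * ω u v) (n : Eig lam → ℕ) :
    ∀ (t : ℕ) (r : Eig lam → ℕ), ∑ α, r α = t →
      GoodN F Z lam (fun α => n α + (r α + r (bar hx hdual hq hF α))) → GoodN F Z lam n := by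
  intro t
  induction t with
  | zero =>
    intro r hr h
    have h1 : ∀ α, r α = 0 := fun α => (Finset.sum_eq_zero_iff.1 hr) α (Finset.mem_univ _)
    have h2 : (fun α => n α + (r α + r (bar hx hdual hq hF α))) = n := by
      funext α
      rw [h1, h1]
      rfl
    rwa [h2] at h
  | succ t ih =>
    intro r hr h
    obtain ⟨α, hα⟩ : ∃ α, 0 < r α := by
      by_contra hall
      push Not at hall
      have h1 : ∑ α, r α = 0 := Finset.sum_eq_zero fun α _ => Nat.le_zero.1 (hall α)
      omega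
    have hbb : ∀ β, bar hx hdual hq hF (bar hx hdual hq hF β) = β := fun β =>
      (bar hx hdual hq hF).left_inv β
    let r' : Eig lam → ℕ := fun β => r β - Pi.single (M := fun _ => ℕ) α 1 β
    have hr' : ∀ β, r β = r' β + Pi.single (M := fun _ => ℕ) α 1 β := by
      intro β
      have h1 : Pi.single (M := fun _ => ℕ) α 1 β ≤ r β := by
        rw [Pi.single_apply]
        by_cases h2 : β = α
        · rw [if_pos h2, h2]
          exact hα
        · rw [if_neg h2]
          exact Nat.zero_le _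
      simp only [r']
      omega
    refine ih r' ?_ ?_
    · have h1 : ∑ β, r β = ∑ β, r' β + 1 := by
        rw [Finset.sum_congr rfl (fun β _ => hr' β), Finset.sum_add_distrib]
        congr 1
        rw [Finset.sum_eq_single α]
        · rw [Pi.single_eq_same]
        · intro β _ hβ
          rw [Pi.single_eq_of_ne hβ]
        · intro h2
          exact absurd (Finset.mem_univ _) h2
      omega
    · -- contraction
      have h1 : Good F Z lam (Sum.elim
          (fun p : Σ β : Eig lam, Fin (n β + (r' β + r' (bar hx hdual hq hF β))) => p.1)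
          ![α, bar hx hdual hq hF α]) := by
        refine good_of_cnt hZ h fun β => ?_
        rw [cnt_sum, cnt_sigma (fun β => n β + (r' β + r' (bar hx hdual hq hF β))), cnt_two,
          hr' β, hr' (bar hx hdual hq hF β)]
        have h2 : Pi.single (M := fun _ => ℕ) (bar hx hdual hq hF α) 1 β =
            Pi.single (M := fun _ => ℕ) α 1 (bar hx hdual hq hF β) := by
          rw [Pi.single_apply, Pi.single_apply]
          by_cases h3 : β = bar hx hdual hq hF α
          · rw [if_pos h3, if_pos (by rw [h3, hbb])]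
          · rw [if_neg h3, if_neg (fun h4 => h3 (by rw [← h4, hbb]))]
        rw [h2]
        ring
      exact good_contract hx hZ hdual hq hF (bar_coe hx hdual hq hF α) h1

/-- Good tuples of eigenvalues: the dual tuple is good as well. -/
theorem good_bar (hx : ∀ a, x a ∘ₗ F = lam a • x a) (hZ : IsAlgebraicSystem F q e e' Z)
    (hdual : ∀ i j, ω (e i) (e' j) = if i = j then 1 else 0) (hq : q ≠ 0)
    (hF : ∀ u v, ω (F u) (F v) = q * ω u v)
    (hrel : ∀ N : Eig lam → ℕ, (∀ (g : Ω ≃ₐ[k] Ω) (α : Eig lam), N (galPerm hx g α) = N α) →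
      (∃ s : ℕ, 0 < s ∧ ∏ α : Eig lam, (α : Ω) ^ (2 * s * N α) =
        (algebraMap k Ω q) ^ (s * ∑ α, N α)) → ∀ α, N (bar hx hdual hq hF α) = N α)
    {ι : Type} [Fintype ι] {μ : ι → Eig lam} (h : Good F Z lam μ) :
    Good F Z lam (fun i => bar hx hdual hq hF (μ i)) := by
  classical
  let n := cnt μ
  have hn : GoodN F Z lam n := (good_iff hZ).1 h
  let R : Finset (Equiv.Perm (Eig lam)) :=
    Finset.univ.filter fun π => ∃ g : Ω ≃ₐ[k] Ω, ∀ α, (π α : Ω) = g α
  have hR1 : (1 : Equiv.Perm (Eig lam)) ∈ R :=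
    Finset.mem_filter.2 ⟨Finset.mem_univ _, AlgEquiv.refl, fun α => rfl⟩
  have hRgood : ∀ π ∈ R, GoodN F Z lam (fun α => n (π α)) := by
    intro π hπ
    obtain ⟨g, hg⟩ := (Finset.mem_filter.1 hπ).2
    exact goodN_gal hx hZ hn hg
  let N : Eig lam → ℕ := ∑ π ∈ R, fun α => n (π α)
  have hNapp : ∀ α, N α = ∑ π ∈ R, n (π α) := fun α => by
    simp only [N, Finset.sum_apply]
  have hN : GoodN F Z lam N := goodN_sum hZ R _ hRgood
  have hinv : ∀ (g : Ω ≃ₐ[k] Ω) (α : Eig lam), N (galPerm hx g α) = N α := by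
    intro g α
    rw [hNapp, hNapp]
    refine Finset.sum_equiv (Equiv.mulRight (galPerm hx g)) (fun π => ?_) (fun π _ => rfl)
    constructor
    · intro hπ
      obtain ⟨g', hg'⟩ := (Finset.mem_filter.1 hπ).2
      refine Finset.mem_filter.2 ⟨Finset.mem_univ _, g.trans g', fun β => ?_⟩
      exact hg' (galPerm hx g β)
    · intro hπ
      obtain ⟨g', hg'⟩ := (Finset.mem_filter.1 hπ).2
      refine Finset.mem_filter.2 ⟨Finset.mem_univ _, g.symm.trans g', fun β => ?_⟩
      have h1 := hg' ((galPerm hx g).symm β)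
      have h2 : (Equiv.mulRight (galPerm hx g) π) ((galPerm hx g).symm β) = π β := by
        change π (galPerm hx g ((galPerm hx g).symm β)) = π β
        rw [Equiv.apply_symm_apply]
      rw [h2] at h1
      exact h1
  have hbar : ∀ α, N (bar hx hdual hq hF α) = N α := by
    refine hrel N hinv ?_
    obtain ⟨s, hs, h1⟩ := good_rel hx hZ hN
    refine ⟨s, hs, ?_⟩
    rw [Fintype.prod_sigma, Fintype.card_sigma] at h1
    simp only [Finset.prod_const, Finset.card_univ, Fintype.card_fin] at h1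
    rw [← h1]
    refine Finset.prod_congr rfl fun α _ => ?_
    rw [← pow_mul]
  -- the tuple with multiplicities `n + 2 N'`
  let N' : Eig lam → ℕ := ∑ π ∈ R.erase 1, fun α => n (π α)
  have hNN' : ∀ α, N α = n α + N' α := by
    intro α
    rw [hNapp]
    simp only [N', Finset.sum_apply]
    rw [← Finset.add_sum_erase R _ hR1]
    rfl
  have hN' : GoodN F Z lam N' :=
    goodN_sum hZ _ _ fun π hπ => hRgood π (Finset.mem_of_mem_erase hπ)
  have hT : GoodN F Z lam (n + (N' + N')) := goodN_add hZ hn (goodN_add hZ hN' hN')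
  have hbb : ∀ β, bar hx hdual hq hF (bar hx hdual hq hF β) = β := fun β =>
    (bar hx hdual hq hF).left_inv β
  have hT' : GoodN F Z lam (fun α => n (bar hx hdual hq hF α) +
      (N' α + N' (bar hx hdual hq hF α))) := by
    have h1 : (fun α => n (bar hx hdual hq hF α) + (N' α + N' (bar hx hdual hq hF α))) =
        n + (N' + N') := by
      funext α
      have h2 := hbar α
      rw [hNN', hNN'] at h2
      change _ = n α + (N' α + N' α)
      omega
    rw [h1]
    exact hT
  have h3 := goodN_cancel hx hZ hdual hq hF (fun α => n (bar hx hdual hq hF α)) _ N' rfl hT'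
  refine good_of_cnt hZ h3 fun α => ?_
  rw [cnt_comp]
  rfl

end main

end

end Pool.Agent.TH776.DN
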