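import Pool.Agent.TH776.DN.Descent

/-!
# Stability properties of the spans over the extension
-/

set_option linter.unusedSectionVars false
set_option linter.unusedVariables false
set_option linter.deprecated false

namespace Pool.Agent.TH776.DN

open Module Finset

noncomputable section

variable {k V Ω : Type} [Field k] [AddCommGroup V] [Module k V] [Field Ω] [Algebra k Ω]
variable {J : Type} [Fintype J] {e e' : Basis J k V}
  {F : V →ₗ[k] V} {q : k} {Z : (ι : Type) → Submodule k (Form k V ι)}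

theorem ZO_pull (hZ : IsAlgebraicSystem F q e e' Z) {ι : Type} [Finite ι] {Φ : OForm k V Ω ι}
    (hΦ : Φ ∈ ZO Ω Z ι) (h : ι → (V →ₗ[k] V))
    (hh : ∀ i, ∃ s : ℕ, 0 < s ∧ ∀ v, h i ((F ^ s) v) = (F ^ s) (h i v)) :
    Φ.compLinearMap h ∈ ZO Ω Z ι := by
  unfold ZO at hΦ
  induction hΦ using Submodule.span_induction with
  | mem Φ hΦ =>
    obtain ⟨φ, hφ, rfl⟩ := hΦ
    exact incl_mem (hZ.pull ι φ h hφ hh)
  | zero =>
    have h1 : (0 : OForm k V Ω ι).compLinearMap h = 0 := by ext v; rfl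
    rw [h1]
    exact Submodule.zero_mem _
  | add Φ Ψ _ _ h1 h2 =>
    have h3 : (Φ + Ψ).compLinearMap h = Φ.compLinearMap h + Ψ.compLinearMap h := by ext v; rfl
    rw [h3]
    exact Submodule.add_mem _ h1 h2
  | smul a Φ _ h1 =>
    have h3 : (a • Φ).compLinearMap h = a • Φ.compLinearMap h := by ext v; rfl
    rw [h3]
    exact Submodule.smul_mem _ _ h1

theorem iterate_scale {ι : Type} {Φ : OForm k V Ω ι} {s : ℕ} {c : Ω}
    (h : ∀ v : ι → V, Φ (fun i => (F ^ (2 * s)) (v i)) = c * Φ v) (t : ℕ) :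
    ∀ v : ι → V, Φ (fun i => (F ^ (2 * (s * t))) (v i)) = c ^ t * Φ v := by
  induction t with
  | zero => intro v; simp
  | succ t ih =>
    intro v
    have h1 : ∀ i, (F ^ (2 * (s * (t + 1)))) (v i) = (F ^ (2 * s)) ((F ^ (2 * (s * t))) (v i)) := by
      intro i
      rw [← Module.End.mul_apply, ← pow_add]
      congr 2
      ring
    simp only [h1]
    rw [h, ih, pow_succ]
    ring

theorem ZO_tate (hZ : IsAlgebraicSystem F q e e' Z) {ι : Type} [Finite ι] {Φ : OForm k V Ω ι}
    (hΦ : Φ ∈ ZO Ω Z ι) : ∃ s : ℕ, 0 < s ∧ ∀ v : ι → V,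
      Φ (fun i => (F ^ (2 * s)) (v i)) = (algebraMap k Ω q) ^ (s * Nat.card ι) * Φ v := by
  unfold ZO at hΦ
  induction hΦ using Submodule.span_induction with
  | mem Φ hΦ =>
    obtain ⟨φ, hφ, rfl⟩ := hΦ
    obtain ⟨s, hs, h⟩ := hZ.tate ι φ hφ
    refine ⟨s, hs, fun v => ?_⟩
    rw [incl_apply, h, map_mul, map_pow, incl_apply]
  | zero => exact ⟨1, one_pos, fun v => by simp⟩
  | add Φ Ψ _ _ h1 h2 =>
    obtain ⟨s, hs, h1⟩ := h1
    obtain ⟨t, ht, h2⟩ := h2
    refine ⟨s * t, Nat.mul_pos hs ht, fun v => ?_⟩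
    have h3 := iterate_scale h1 t v
    have h4 := iterate_scale h2 s v
    rw [mul_comm t s] at h4
    rw [MultilinearMap.add_apply, h3, h4, MultilinearMap.add_apply, ← pow_mul, ← pow_mul]
    have e1 : s * Nat.card ι * t = s * t * Nat.card ι := by ring
    have e2 : t * Nat.card ι * s = s * t * Nat.card ι := by ring
    rw [e1, e2]
    ring
  | smul a Φ _ h1 =>
    obtain ⟨s, hs, h1⟩ := h1
    refine ⟨s, hs, fun v => ?_⟩
    rw [MultilinearMap.smul_apply, h1, MultilinearMap.smul_apply, smul_eq_mul, smul_eq_mul]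
    ring

theorem ZO_gal (g : Ω ≃ₐ[k] Ω) {ι : Type} {Φ : OForm k V Ω ι} (hΦ : Φ ∈ ZO Ω Z ι) :
    (g.toLinearMap).compMultilinearMap Φ ∈ ZO Ω Z ι := by
  unfold ZO at hΦ
  induction hΦ using Submodule.span_induction with
  | mem Φ hΦ =>
    obtain ⟨φ, hφ, rfl⟩ := hΦ
    have h1 : (g.toLinearMap).compMultilinearMap (incl Ω φ) = incl Ω φ := by
      ext v
      exact g.commutes _
    rw [h1]
    exact incl_mem hφ
  | zero =>
    have h1 : (g.toLinearMap).compMultilinearMap (0 : OForm k V Ω ι) = 0 := by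
      ext v
      exact map_zero g
    rw [h1]
    exact Submodule.zero_mem _
  | add Φ Ψ _ _ h1 h2 =>
    have h3 : (g.toLinearMap).compMultilinearMap (Φ + Ψ) =
        (g.toLinearMap).compMultilinearMap Φ + (g.toLinearMap).compMultilinearMap Ψ := by
      ext v
      exact map_add g _ _
    rw [h3]
    exact Submodule.add_mem _ h1 h2
  | smul a Φ _ h1 =>
    have h3 : (g.toLinearMap).compMultilinearMap (a • Φ) =
        g a • (g.toLinearMap).compMultilinearMap Φ := by
      ext v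
      exact map_mul g _ _
    rw [h3]
    exact Submodule.smul_mem _ _ h1

/-- Tensor product. -/
def tens {ι κ : Type} (Φ : OForm k V Ω ι) (Ψ : OForm k V Ω κ) : OForm k V Ω (ι ⊕ κ) :=
  (LinearMap.mul' k Ω).compMultilinearMap (Φ.domCoprod Ψ)

theorem tens_apply {ι κ : Type} (Φ : OForm k V Ω ι) (Ψ : OForm k V Ω κ) (v : ι ⊕ κ → V) :
    tens Φ Ψ v = Φ (fun i => v (Sum.inl i)) * Ψ (fun j => v (Sum.inr j)) := rfl

theorem ZO_tens (hZ : IsAlgebraicSystem F q e e' Z) {ι κ : Type} [Finite ι] [Finite κ]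
    {Φ : OForm k V Ω ι} {Ψ : OForm k V Ω κ} (hΦ : Φ ∈ ZO Ω Z ι) (hΨ : Ψ ∈ ZO Ω Z κ) :
    tens Φ Ψ ∈ ZO Ω Z (ι ⊕ κ) := by
  unfold ZO at hΦ
  induction hΦ using Submodule.span_induction with
  | mem Φ hΦ =>
    obtain ⟨φ, hφ, rfl⟩ := hΦ
    unfold ZO at hΨ
    induction hΨ using Submodule.span_induction with
    | mem Ψ hΨ =>
      obtain ⟨ψ, hψ, rfl⟩ := hΨ
      have h1 : tens (incl Ω φ) (incl Ω ψ) =
          incl Ω ((LinearMap.mul' k k).compMultilinearMap (φ.domCoprod ψ)) := by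
        ext v
        rw [tens_apply, incl_apply, incl_apply, incl_apply, ← map_mul]
        rfl
      rw [h1]
      exact incl_mem (hZ.tensor ι κ φ ψ hφ hψ _ fun v => rfl)
    | zero =>
      have h1 : tens (incl Ω φ) (0 : OForm k V Ω κ) = 0 := by
        ext v
        rw [tens_apply, MultilinearMap.zero_apply, mul_zero, MultilinearMap.zero_apply]
      rw [h1]
      exact Submodule.zero_mem _
    | add Ψ Ψ' _ _ h1 h2 =>
      have h3 : tens (incl Ω φ) (Ψ + Ψ') = tens (incl Ω φ) Ψ + tens (incl Ω φ) Ψ' := by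
        ext v
        rw [tens_apply, MultilinearMap.add_apply, mul_add, MultilinearMap.add_apply, tens_apply,
          tens_apply]
      rw [h3]
      exact Submodule.add_mem _ h1 h2
    | smul a Ψ _ h1 =>
      have h3 : tens (incl Ω φ) (a • Ψ) = a • tens (incl Ω φ) Ψ := by
        ext v
        rw [tens_apply, MultilinearMap.smul_apply, MultilinearMap.smul_apply, tens_apply,
          smul_eq_mul, smul_eq_mul]
        ring
      rw [h3]
      exact Submodule.smul_mem _ _ h1
  | zero =>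
    have h1 : tens (0 : OForm k V Ω ι) Ψ = 0 := by
      ext v
      rw [tens_apply, MultilinearMap.zero_apply, zero_mul, MultilinearMap.zero_apply]
    rw [h1]
    exact Submodule.zero_mem _
  | add Φ Φ' _ _ h1 h2 =>
    have h3 : tens (Φ + Φ') Ψ = tens Φ Ψ + tens Φ' Ψ := by
      ext v
      rw [tens_apply, MultilinearMap.add_apply, add_mul, MultilinearMap.add_apply, tens_apply,
        tens_apply]
    rw [h3]
    exact Submodule.add_mem _ h1 h2
  | smul a Φ _ h1 =>
    have h3 : tens (a • Φ) Ψ = a • tens Φ Ψ := by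
      ext v
      rw [tens_apply, MultilinearMap.smul_apply, MultilinearMap.smul_apply, tens_apply,
        smul_eq_mul, smul_eq_mul]
      ring
    rw [h3]
    exact Submodule.smul_mem _ _ h1

theorem ZO_reindex (hZ : IsAlgebraicSystem F q e e' Z) {ι κ : Type} [Finite ι] (σ : ι ≃ κ)
    {Φ : OForm k V Ω ι} (hΦ : Φ ∈ ZO Ω Z ι) : Φ.domDomCongr σ ∈ ZO Ω Z κ := by
  unfold ZO at hΦ
  induction hΦ using Submodule.span_induction with
  | mem Φ hΦ =>
    obtain ⟨φ, hφ, rfl⟩ := hΦ
    exact incl_mem (hZ.reindex ι κ σ φ hφ)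
  | zero =>
    have h1 : (0 : OForm k V Ω ι).domDomCongr σ = 0 := by ext v; rfl
    rw [h1]
    exact Submodule.zero_mem _
  | add Φ Ψ _ _ h1 h2 =>
    have h3 : (Φ + Ψ).domDomCongr σ = Φ.domDomCongr σ + Ψ.domDomCongr σ := by ext v; rfl
    rw [h3]
    exact Submodule.add_mem _ h1 h2
  | smul a Φ _ h1 =>
    have h3 : (a • Φ).domDomCongr σ = a • Φ.domDomCongr σ := by ext v; rfl
    rw [h3]
    exact Submodule.smul_mem _ _ h1

/-- Fixing the last two variables. -/
def fix {R : Type} [AddCommGroup R] [Module k R] {ι : Type}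
    (Φ : MultilinearMap k (fun _ : ι ⊕ Fin 2 => V) R) (u : Fin 2 → V) :
    MultilinearMap k (fun _ : ι => V) R where
  toFun v := Φ (Sum.elim v u)
  map_update_add' v i a b := by
    classical
    have h : ∀ w : V, Sum.elim (Function.update v i w) u =
        Function.update (Sum.elim v u) (Sum.inl i) w := fun w => by
      rw [Sum.update_elim_inl]
    have h' : ∀ w : V, (Sum.elim (@Function.update _ _ (fun a b => _) v i w) u : ι ⊕ Fin 2 → V) =
        Function.update (Sum.elim v u) (Sum.inl i) w := fun w => by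
      rw [← h w]
    rw [h', h', h', MultilinearMap.map_update_add]
  map_update_smul' v i c a := by
    classical
    have h : ∀ w : V, Sum.elim (Function.update v i w) u =
        Function.update (Sum.elim v u) (Sum.inl i) w := fun w => by
      rw [Sum.update_elim_inl]
    have h' : ∀ w : V, (Sum.elim (@Function.update _ _ (fun a b => _) v i w) u : ι ⊕ Fin 2 → V) =
        Function.update (Sum.elim v u) (Sum.inl i) w := fun w => by
      rw [← h w]
    rw [h', h', MultilinearMap.map_update_smul]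

theorem fix_apply {R : Type} [AddCommGroup R] [Module k R] {ι : Type}
    (Φ : MultilinearMap k (fun _ : ι ⊕ Fin 2 => V) R) (u : Fin 2 → V) (v : ι → V) :
    fix Φ u v = Φ (Sum.elim v u) := rfl

theorem ZO_contract (hZ : IsAlgebraicSystem F q e e' Z) {ι : Type} [Finite ι]
    {Φ : OForm k V Ω (ι ⊕ Fin 2)} (hΦ : Φ ∈ ZO Ω Z (ι ⊕ Fin 2)) :
    ∑ j, fix Φ ![e j, e' j] ∈ ZO Ω Z ι := by
  unfold ZO at hΦ
  induction hΦ using Submodule.span_induction with
  | mem Φ hΦ =>
    obtain ⟨φ, hφ, rfl⟩ := hΦ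
    have h1 : ∑ j, fix (incl Ω φ) ![e j, e' j] = incl Ω (∑ j, fix φ ![e j, e' j]) := by
      ext v
      rw [MultilinearMap.sum_apply, incl_apply, MultilinearMap.sum_apply, map_sum]
      rfl
    rw [h1]
    refine incl_mem (hZ.contract ι φ hφ _ fun v => ?_)
    rw [MultilinearMap.sum_apply]
    rfl
  | zero =>
    have h1 : ∑ j, fix (0 : OForm k V Ω (ι ⊕ Fin 2)) ![e j, e' j] = 0 :=
      Finset.sum_eq_zero fun j _ => by ext v; rfl
    rw [h1]
    exact Submodule.zero_mem _
  | add Φ Ψ _ _ h1 h2 =>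
    have h3 : ∑ j, fix (Φ + Ψ) ![e j, e' j] =
        ∑ j, fix Φ ![e j, e' j] + ∑ j, fix Ψ ![e j, e' j] := by
      rw [← Finset.sum_add_distrib]
      exact Finset.sum_congr rfl fun j _ => by ext v; rfl
    rw [h3]
    exact Submodule.add_mem _ h1 h2
  | smul a Φ _ h1 =>
    have h3 : ∑ j, fix (a • Φ) ![e j, e' j] = a • ∑ j, fix Φ ![e j, e' j] := by
      rw [Finset.smul_sum]
      exact Finset.sum_congr rfl fun j _ => by ext v; rfl
    rw [h3]
    exact Submodule.smul_mem _ _ h1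

end

end Pool.Agent.TH776.DN
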